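import Pool.Agent.Helper6.CS.Goals1

/-!
# Packet CS-CS1 (project CS, MP_81e84b_lc): Lemma 3
-/

set_option autoImplicit false

namespace Pool.Agent.Helper14.CS

open Pool.Agent.Helper6.CS

variable {M : Type} [World M]

theorem over_rep {b c n : M} (h : c < b) : Over b (rep c n) := by
  intro i hi
  unfold rep at hi ⊢
  rw [Wd.len_of] at hi
  rw [Wd.get_of_lt _ _ hi]
  exact h

theorem len_rep (c n : M) : (rep c n).len = n := by
  unfold rep
  rw [Wd.len_of]

set_option synthInstance.maxSize 1000000000 in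
theorem ifn_gamma (e h : M) : IFn M fun i : M => apn e (apw h (rep (0 : M) i)) := by
  unfold rep
  infer_instance

set_option synthInstance.maxSize 1000000000 in
open Classical in
theorem ifn_col (b : M) (c : Wd M → M) [hc : IFn M c] :
    IFn M fun z : Wd M => if Over b z then c z else 0 := by
  infer_instance

theorem t_CS1 (hLHA : G_LHA) (hPH : G_PH) (hCDF : G_CDF) : G_CS1 := by
  classical
  intro M _ b r
  by_cases hb : b = 0
  · subst hb
    refine ⟨1, fun c _ _ => ⟨Wd.nil M, Wd.nil M, Over.nil _, Over.nil _, by simp, ?_⟩⟩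
    intro a ha
    exact absurd ha (not_lt.2 (World.zero_le' a))
  have hb0 : 0 < b := lt_of_le_of_ne (World.zero_le' _) (Ne.symm hb)
  have hbL : b < b + 1 := (World.lt_succ _ _).2 le_rfl
  obtain ⟨N, hN⟩ := hLHA M (b + 1) b hbL.le r r
  refine ⟨N, fun c hc hcol => ?_⟩
  have hr : 0 < r := lt_of_le_of_lt (World.zero_le' _)
    (hcol (Wd.nil M) (Over.nil _) (by rw [Wd.len_nil]; exact World.zero_le' _))
  have hcI := ifn_col b c
  obtain ⟨e, he⟩ := (hCDF M (b + 1) N).1 _ hcI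
  have hCol : ColB (b + 1) N r e := by
    intro z hz hzl
    rw [he z hz hzl]
    split_ifs with h1
    · exact hcol z h1 hzl
    · exact hr
  obtain ⟨h, ⟨hs1, hs2, hs3⟩, hlev⟩ := hN e hCol
  have hrep : ∀ n : M, Over b (rep (0 : M) n) := fun n => over_rep hb0
  have hγ : ∀ i, i ≤ r → apn e (apw h (rep (0 : M) i)) < r := by
    intro i hi
    obtain ⟨h1, h2⟩ := hs1 (rep 0 i) b le_rfl hbL.le (hrep i) (by rwa [len_rep])
    exact hCol _ (h1.mono hbL.le) h2
  obtain ⟨i, j, hij, hjr, hγij⟩ := hPH M _ (ifn_gamma e h) r hγ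
  obtain ⟨d, hd⟩ := World.exists_add _ _ (World.add_one_le hij)
  have hir : i ≤ r := hij.le.trans hjr
  have hlen : (rep (0 : M) i).len + ((rep (0 : M) d).len + 1) = j := by
    rw [len_rep, len_rep, hd]
    ring
  obtain ⟨z, hz, hzeq⟩ := hs3 (rep 0 i) b (rep 0 d) ((hrep i).mono hbL.le) hbL
    ((hrep d).mono hbL.le) (hlen.trans_le hjr)
  obtain ⟨hσ, hσl⟩ := hs1 (rep 0 i) b le_rfl hbL.le (hrep i) (by rwa [len_rep])
  have hwL : Over (b + 1) (rep (0 : M) i ++ Wd.sg b ++ rep 0 d) :=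
    Over.append_iff.2 ⟨Over.append_iff.2 ⟨(hrep i).mono hbL.le, Over.sg_iff.2 hbL⟩,
      (hrep d).mono hbL.le⟩
  have hwl : (rep (0 : M) i ++ Wd.sg b ++ rep 0 d).len ≤ r := by
    rw [Wd.len_append, Wd.len_append, Wd.len_sg, add_assoc, add_comm (1 : M), hlen]
    exact hjr
  refine ⟨apw h (rep 0 i), z, hσ, hz, ?_, ?_⟩
  · have h1 := (hs1 _ (b + 1) hbL.le le_rfl hwL hwl).2
    rw [hzeq, Wd.len_append, Wd.len_append, Wd.len_sg, add_assoc, add_comm (1 : M)] at h1
    exact h1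
  · intro a ha
    have haL : a < b + 1 := ha.trans hbL
    have h1 := hs2 _ b a hwL hwl le_rfl hbL haL
    rw [hzeq, Wd.sub_append, Wd.sub_append, Wd.sub_append, Wd.sub_append, Wd.sub_sg, if_pos rfl,
      Wd.sub_of_over (hrep i), Wd.sub_of_over (hrep d), Wd.sub_of_over hσ] at h1
    rw [← h1]
    have hwa : Over b (rep (0 : M) i ++ Wd.sg a ++ rep 0 d) :=
      Over.append_iff.2 ⟨Over.append_iff.2 ⟨hrep i, Over.sg_iff.2 ha⟩, hrep d⟩
    have hwal : (rep (0 : M) i ++ Wd.sg a ++ rep 0 d).len = j := by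
      rw [Wd.len_append, Wd.len_append, Wd.len_sg, add_assoc, add_comm (1 : M), hlen]
    obtain ⟨h2, h3⟩ := hs1 _ b le_rfl hbL.le hwa (hwal.trans_le hjr)
    have h4 := hlev _ (rep 0 j) hwa (hrep j) (hwal.trans_le hjr) (by rw [hwal, len_rep])
    rw [← hγij, he _ (h2.mono hbL.le) h3, he _ (hσ.mono hbL.le) hσl, if_pos h2, if_pos hσ] at h4
    exact h4

end Pool.Agent.Helper14.CS
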